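import Mathlib

/-!
# The threshold number is not bounded by a function of the threshold dimension

The complete multipartite graphs `K_{3,…,3}` have threshold dimension at most three and
unbounded threshold number.
-/

namespace Pool.Agent.Results.MP_105209_co.UnboundedAtThree

open Finset

/-- `G` is `k`-threshold: there are reals `θ₁ < … < θ_k` and ranks `r_v` such that distinct
vertices `v, w` are adjacent iff the number of indices `i` with `θ_i ≤ r_v + r_w` is odd. -/
def IsThreshold {V : Type*} (k : ℕ) (G : SimpleGraph V) : Prop :=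
  ∃ θ : Fin k → ℝ, StrictMono θ ∧ ∃ r : V → ℝ, ∀ v w, v ≠ w →
    (G.Adj v w ↔ Odd {i : Fin k | θ i ≤ r v + r w}.ncard)

/-- The threshold number `Θ(G)`: the least `k` such that `G` is `k`-threshold. -/
noncomputable def thresholdNumber {V : Type*} (G : SimpleGraph V) : ℕ :=
  sInf {k | IsThreshold k G}

/-- The threshold dimension `t(G)`: the least `k` such that `G` is the union of `k` threshold
graphs (that is, `1`-threshold graphs) on the same vertex set. -/
noncomputable def thresholdDimension {V : Type*} (G : SimpleGraph V) : ℕ :=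
  sInf {k | ∃ H : Fin k → SimpleGraph V, (∀ i, IsThreshold 1 (H i)) ∧
    ∀ v w, G.Adj v w ↔ ∃ i, (H i).Adj v w}

/-- The complete multipartite graph with `p` parts of size three. -/
def K3 (p : ℕ) : SimpleGraph (Fin p × Fin 3) where
  Adj x y := x.1 ≠ y.1
  symm := ⟨fun _ _ h => h.symm⟩
  loopless := ⟨fun _ h => h rfl⟩

/-- Every finite graph is `k`-threshold for some `k`. -/
theorem exists_isThreshold {V : Type*} [Finite V] (G : SimpleGraph V) :
    ∃ k, IsThreshold k G := by
  classical
  have := Fintype.ofFinite V
  -- ranks: powers of three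
  let q : V → ℕ := fun v => 3 ^ (Fintype.equivFin V v).val
  have hq : ∀ a b c d : V, q a + q b = q c + q d → (a = c ∧ b = d) ∨ (a = d ∧ b = c) := by
    have mono : ∀ {a b : ℕ}, a ≤ b → 3 ^ a ≤ 3 ^ b :=
      fun h => Nat.pow_le_pow_right (by norm_num) h
    have step : ∀ {a b c : ℕ}, a ≤ b → b < c → 3 ^ a + 3 ^ b < 3 ^ c := by
      intro a b c hab hbc
      have h1 := mono hab
      have h2 : 3 ^ (b + 1) ≤ 3 ^ c := mono hbc
      have h3 : 0 < 3 ^ b := by positivity
      rw [pow_succ] at h2
      omega
    have inj : ∀ {a b : ℕ}, 3 ^ a = 3 ^ b → a = b :=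
      fun h => Nat.pow_right_injective (by norm_num) h
    have main : ∀ {i j k l : ℕ}, i ≤ j → k ≤ l → 3 ^ i + 3 ^ j = 3 ^ k + 3 ^ l →
        i = k ∧ j = l := by
      intro i j k l hij hkl h
      have p1 : 0 < 3 ^ i := by positivity
      have p2 : 0 < 3 ^ k := by positivity
      rcases lt_trichotomy j l with h1 | h1 | h1
      · have := step hij h1
        omega
      · subst h1
        exact ⟨inj (by omega), rfl⟩
      · have := step hkl h1
        omega
    have vinj : ∀ a b : V, (Fintype.equivFin V a).val = (Fintype.equivFin V b).val → a = b :=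
      fun a b h => (Fintype.equivFin V).injective (Fin.ext h)
    intro a b c d h
    rcases le_total (Fintype.equivFin V a).val (Fintype.equivFin V b).val with h1 | h1 <;>
      rcases le_total (Fintype.equivFin V c).val (Fintype.equivFin V d).val with h2 | h2
    · have := main h1 h2 h
      exact Or.inl ⟨vinj _ _ this.1, vinj _ _ this.2⟩
    · have := main h1 h2 (by change q a + q b = q d + q c; omega)
      exact Or.inr ⟨vinj _ _ this.1, vinj _ _ this.2⟩
    · have := main h1 h2 (by change q b + q a = q c + q d; omega)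
      exact Or.inr ⟨vinj _ _ this.2, vinj _ _ this.1⟩
    · have := main h1 h2 (by change q b + q a = q d + q c; omega)
      exact Or.inl ⟨vinj _ _ this.2, vinj _ _ this.1⟩
  -- thresholds
  let S : Finset ℕ := (Finset.univ.filter (fun p : V × V => G.Adj p.1 p.2)).image
    (fun p => q p.1 + q p.2)
  have memS : ∀ s, s ∈ S ↔ ∃ u v, G.Adj u v ∧ q u + q v = s := by
    intro s
    simp [S]
  let T : Finset ℝ := S.image (fun s : ℕ => (s : ℝ)) ∪ S.image (fun s : ℕ => (s : ℝ) + 1 / 2)
  let θ := T.orderEmbOfFin rfl
  refine ⟨T.card, θ, θ.strictMono, fun v => (q v : ℝ), ?_⟩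
  have count : ∀ x : ℕ, {i | θ i ≤ (x : ℝ)}.ncard =
      (S.filter (fun s => s ≤ x)).card + (S.filter (fun s => s < x)).card := by
    intro x
    have h1 : {i | θ i ≤ (x : ℝ)}.ncard = (T.filter (fun t => t ≤ (x : ℝ))).card := by
      refine (Set.ncard_image_of_injective _ θ.injective).symm.trans
        (Eq.trans ?_ (Set.ncard_coe_finset _))
      congr 1
      ext t
      simp only [Set.mem_image, Finset.coe_filter]
      constructor
      · rintro ⟨i, hi, rfl⟩
        exact ⟨T.orderEmbOfFin_mem rfl i, hi⟩
      · rintro ⟨ht, ht'⟩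
        have : t ∈ Set.range (T.orderEmbOfFin rfl) := by
          rw [Finset.range_orderEmbOfFin]
          exact ht
        obtain ⟨i, rfl⟩ := this
        exact ⟨i, ht', rfl⟩
    rw [h1, Finset.filter_union, Finset.card_union_of_disjoint]
    · congr 1
      · rw [Finset.filter_image, Finset.card_image_of_injective _ Nat.cast_injective]
        congr 1
        ext s
        simp
      · rw [Finset.filter_image, Finset.card_image_of_injective]
        · congr 1
          ext s
          simp only [Finset.mem_filter, and_congr_right_iff]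
          intro _
          constructor
          · intro h
            have : (s : ℝ) < (x : ℝ) := by linarith
            exact_mod_cast this
          · intro h
            have : (s : ℝ) + 1 ≤ (x : ℝ) := by exact_mod_cast h
            linarith
        · intro a b h
          have : (a : ℝ) = b := by
            have h' : (a : ℝ) + 1 / 2 = (b : ℝ) + 1 / 2 := h
            linarith
          exact_mod_cast this
    · rw [Finset.disjoint_left]
      intro t ht ht'
      simp only [Finset.mem_filter, Finset.mem_image] at ht ht'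
      obtain ⟨⟨a, -, rfl⟩, -⟩ := ht
      obtain ⟨⟨b, -, h⟩, -⟩ := ht'
      have h2 : (2 * b + 1 : ℝ) = 2 * a := by linarith
      have h3 : 2 * b + 1 = 2 * a := by exact_mod_cast h2
      omega
  intro v w hvw
  have hcast : (q v : ℝ) + (q w : ℝ) = ((q v + q w : ℕ) : ℝ) := by push_cast; ring
  rw [hcast, count]
  have hsplit : (S.filter (fun s => s ≤ q v + q w)).card =
      (S.filter (fun s => s < q v + q w)).card + (if q v + q w ∈ S then 1 else 0) := by
    have : S.filter (fun s => s ≤ q v + q w) =
        S.filter (fun s => s < q v + q w) ∪ S.filter (fun s => s = q v + q w) := by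
      ext s
      simp only [Finset.mem_filter, Finset.mem_union]
      constructor
      · rintro ⟨h1, h2⟩
        rcases lt_or_eq_of_le h2 with h | h
        · exact Or.inl ⟨h1, h⟩
        · exact Or.inr ⟨h1, h⟩
      · rintro (⟨h1, h2⟩ | ⟨h1, h2⟩)
        · exact ⟨h1, h2.le⟩
        · exact ⟨h1, h2.le⟩
    rw [this, Finset.card_union_of_disjoint]
    · congr 1
      rw [Finset.filter_eq']
      split_ifs <;> simp
    · rw [Finset.disjoint_left]
      intro s hs hs'
      simp only [Finset.mem_filter] at hs hs'
      omega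
  have hiff : G.Adj v w ↔ q v + q w ∈ S := by
    rw [memS]
    constructor
    · intro h
      exact ⟨v, w, h, rfl⟩
    · rintro ⟨a, b, hab, h⟩
      rcases hq _ _ _ _ h with ⟨rfl, rfl⟩ | ⟨rfl, rfl⟩
      · exact hab
      · exact hab.symm
  rw [hiff, hsplit]
  by_cases h : q v + q w ∈ S
  · simp only [h, if_true, true_iff]
    exact ⟨(S.filter (fun s => s < q v + q w)).card, by ring⟩
  · simp only [h, if_false, false_iff, Nat.not_odd_iff_even]
    exact ⟨(S.filter (fun s => s < q v + q w)).card, by ring⟩

/-- The complete multipartite graph with parts of size three is a union of three threshold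
graphs. -/
theorem dimension_le (p : ℕ) : thresholdDimension (K3 p) ≤ 3 := by
  apply Nat.sInf_le
  -- ranks for the `i`-th threshold graph
  let r : Fin 3 → Fin p × Fin 3 → ℝ := fun i x =>
    if x.2 = i then 2 * (x.1.val : ℝ) + 1 else -(2 * (x.1.val : ℝ) + 2)
  let H : Fin 3 → SimpleGraph (Fin p × Fin 3) := fun i =>
    { Adj := fun x y => x ≠ y ∧ 0 ≤ r i x + r i y
      symm := ⟨fun x y h => ⟨h.1.symm, by rw [add_comm]; exact h.2⟩⟩
      loopless := ⟨fun x h => h.1 rfl⟩ }
  refine ⟨H, ?_, ?_⟩
  · intro i
    refine ⟨fun _ => 0, Subsingleton.strictMono _, r i, ?_⟩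
    intro v w hvw
    by_cases h : 0 ≤ r i v + r i w
    · have h1 : {j : Fin 1 | (0 : ℝ) ≤ r i v + r i w} = Set.univ := by
        ext j; simp [h]
      rw [h1, Set.ncard_univ]
      simp only [Nat.card_eq_fintype_card, Fintype.card_fin]
      exact ⟨fun _ => odd_one, fun _ => ⟨hvw, h⟩⟩
    · have h1 : {j : Fin 1 | (0 : ℝ) ≤ r i v + r i w} = ∅ := by
        ext j; simp [h]
      rw [h1, Set.ncard_empty]
      constructor
      · intro h'
        exact absurd h'.2 h
      · intro h'
        simp at h'
  · intro v w
    constructor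
    · intro hvw
      have hvw' : v.1.val ≠ w.1.val := fun h => hvw (Fin.ext h)
      have hne : v ≠ w := fun h => hvw (by rw [h])
      rcases lt_or_gt_of_ne hvw' with h | h
      · refine ⟨w.2, hne, ?_⟩
        have h' : (v.1.val : ℝ) + 1 ≤ w.1.val := by exact_mod_cast h
        simp only [r, if_true]
        split_ifs
        · positivity
        · linarith
      · refine ⟨v.2, hne, ?_⟩
        have h' : (w.1.val : ℝ) + 1 ≤ v.1.val := by exact_mod_cast h
        simp only [r, if_true]
        split_ifs
        · positivity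
        · linarith
    · rintro ⟨i, hne, h⟩ heq
      have h2 : v.2 ≠ w.2 := fun h2 => hne (Prod.ext heq h2)
      simp only [r] at h
      rw [heq] at h
      split_ifs at h with h3 h4
      · exact h2 (h3.trans h4.symm)
      · linarith
      · linarith
      · have : (0 : ℝ) ≤ w.1.val := by positivity
        linarith

/-- If `K_{3,…,3}` with `p` parts is `k`-threshold then `p ≤ (k + 1) ^ 3`. -/
theorem parts_le {p k : ℕ} (h : IsThreshold k (K3 p)) : p ≤ (k + 1) ^ 3 := by
  classical
  obtain ⟨θ, hθ, r, hr⟩ := h
  let c : ℝ → ℕ := fun x => {i : Fin k | θ i ≤ x}.ncard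
  have hc : ∀ x, c x ≤ k := fun x => by
    have := Set.ncard_le_ncard (Set.subset_univ {i : Fin k | θ i ≤ x})
    simpa [Set.ncard_univ] using this
  have hmono : ∀ x y, x ≤ y → c x ≤ c y := fun x y hxy =>
    Set.ncard_le_ncard (fun i hi => le_trans hi hxy)
  let a : Fin p → ℝ := fun j => r (j, 0)
  let b : Fin p → ℝ := fun j => r (j, 1)
  let d : Fin p → ℝ := fun j => r (j, 2)
  by_contra hlt
  push Not at hlt
  let F : Fin p → Fin (k + 1) × Fin (k + 1) × Fin (k + 1) := fun j =>
    (⟨c (a j + b j), Nat.lt_succ_of_le (hc _)⟩, ⟨c (a j + d j), Nat.lt_succ_of_le (hc _)⟩,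
      ⟨c (b j + d j), Nat.lt_succ_of_le (hc _)⟩)
  have hcard : Fintype.card (Fin (k + 1) × Fin (k + 1) × Fin (k + 1)) < Fintype.card (Fin p) := by
    simp only [Fintype.card_prod, Fintype.card_fin]
    calc (k + 1) * ((k + 1) * (k + 1)) = (k + 1) ^ 3 := by ring
      _ < p := hlt
  obtain ⟨j, l, hjl, hF⟩ := Fintype.exists_ne_map_eq_of_card_lt F hcard
  simp only [F, Prod.mk.injEq, Fin.mk.injEq] at hF
  obtain ⟨h1, h2, h3⟩ := hF
  -- if the differences of two coordinates have the same sign, a cross sum is in the same class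
  have key : ∀ s t : Fin 3, s ≠ t →
      c (r (j, s) + r (j, t)) = c (r (l, s) + r (l, t)) →
      ¬ (r (j, s) ≤ r (l, s) ∧ r (j, t) ≤ r (l, t)) ∧
      ¬ (r (l, s) ≤ r (j, s) ∧ r (l, t) ≤ r (j, t)) := by
    intro s t hst hEq
    have e1 : ¬ (K3 p).Adj (j, s) (j, t) := fun h => h rfl
    have e2 : (K3 p).Adj (j, s) (l, t) := hjl
    rw [hr _ _ (fun h => hst (congrArg Prod.snd h))] at e1
    rw [hr _ _ (fun h => hjl (congrArg Prod.fst h))] at e2
    have e3 : c (r (j, s) + r (l, t)) ≠ c (r (j, s) + r (j, t)) := by
      intro h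
      change ¬ Odd (c _) at e1
      change Odd (c _) at e2
      rw [h] at e2
      exact e1 e2
    constructor
    · rintro ⟨h4, h5⟩
      have h6 := hmono (r (j, s) + r (j, t)) (r (j, s) + r (l, t)) (by linarith)
      have h7 := hmono (r (j, s) + r (l, t)) (r (l, s) + r (l, t)) (by linarith)
      omega
    · rintro ⟨h4, h5⟩
      have h6 := hmono (r (l, s) + r (l, t)) (r (j, s) + r (l, t)) (by linarith)
      have h7 := hmono (r (j, s) + r (l, t)) (r (j, s) + r (j, t)) (by linarith)
      omega
  have k1 := key 0 1 (by decide) h1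
  have k2 := key 0 2 (by decide) h2
  have k3 := key 1 2 (by decide) h3
  rcases le_total (r (j, 0)) (r (l, 0)) with u | u <;>
    rcases le_total (r (j, 1)) (r (l, 1)) with v | v <;>
    rcases le_total (r (j, 2)) (r (l, 2)) with w | w <;> tauto

/-- **Main result.** There is `m ≤ 3` such that the threshold number is unbounded on the finite
graphs of threshold dimension `m`. -/
theorem result : ∃ m ≤ 3, ∀ N : ℕ, ∃ (V : Type) (_ : Fintype V) (G : SimpleGraph V),
    thresholdDimension G = m ∧ N < thresholdNumber G := by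
  by_contra hcon
  push Not at hcon
  have h : ∀ m : ℕ, ∃ N : ℕ, m ≤ 3 → ∀ (V : Type) (_ : Fintype V) (G : SimpleGraph V),
      thresholdDimension G = m → thresholdNumber G ≤ N := by
    intro m
    by_cases hm : m ≤ 3
    · obtain ⟨N, hN⟩ := hcon m hm
      exact ⟨N, fun _ => hN⟩
    · exact ⟨0, fun h => absurd h hm⟩
  choose N hN using h
  let B := N 0 + N 1 + N 2 + N 3
  let p := (B + 1) ^ 3 + 1
  have h1 := dimension_le p
  have h2 := hN _ h1 (Fin p × Fin 3) inferInstance (K3 p) rfl
  have h3 : thresholdNumber (K3 p) ≤ B := by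
    refine h2.trans ?_
    have : thresholdDimension (K3 p) = 0 ∨ thresholdDimension (K3 p) = 1 ∨
        thresholdDimension (K3 p) = 2 ∨ thresholdDimension (K3 p) = 3 := by omega
    rcases this with h | h | h | h <;> rw [h] <;> simp only [B] <;> omega
  have h4 : IsThreshold (thresholdNumber (K3 p)) (K3 p) := Nat.sInf_mem (exists_isThreshold _)
  have h5 := parts_le h4
  have h6 : (thresholdNumber (K3 p) + 1) ^ 3 ≤ (B + 1) ^ 3 := Nat.pow_le_pow_left (by omega) 3
  omega

end Pool.Agent.Results.MP_105209_co.UnboundedAtThree
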